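import Pool.Agent.H.MP_514f39_an.Main

namespace Pool.Agent.Results.MP_514f39_an.NoPermBasis

open Filter Topology Finset Pool.Agent.H.MP_514f39_an Pool.Agent.Lib.helper22.SeqSpace

theorem result : ∃ (E : Type) (_ : NormedAddCommGroup E) (_ : NormedSpace ℝ E) (_ : CompleteSpace E)
    (_ : TopologicalSpace.SeparableSpace E) (x : ℕ → E),
    (∀ m, x m ∉ (Submodule.span ℝ (x '' {n | n ≠ m})).topologicalClosure) ∧
    (∀ v : E, ∃ α : ℕ → ℝ,
      (∃ σ : Equiv.Perm ℕ, Tendsto (fun n => ∑ i ∈ range n, α (σ i) • x (σ i)) atTop (𝓝 v)) ∧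
      ∀ (β : ℕ → ℝ) (π : Equiv.Perm ℕ),
        Tendsto (fun n => ∑ i ∈ range n, β (π i) • x (π i)) atTop (𝓝 v) → β = α) ∧
    ∀ τ : Equiv.Perm ℕ, ¬ ∀ v : E, ∃! α : ℕ → ℝ,
      Tendsto (fun n => ∑ i ∈ range n, α i • x (τ i)) atTop (𝓝 v) := by
  refine ⟨X TT, inferInstance, inferInstance, inferInstance, sep, x TT, minimal,
    fun v => ⟨fun i => f TT i v, expand v, fun β π h => funext fun k => ?_⟩,
    fun τ h => no_order τ fun v => ?_⟩
  · simpa using uniq v π (fun i => β (π i)) h (π.symm k)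
  · obtain ⟨α, hα, -⟩ := h v
    simpa only [← uniq v τ α hα] using hα

end Pool.Agent.Results.MP_514f39_an.NoPermBasis
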